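import Pool.Agent.Helper48.TF.Defs5

/-!
# TF part UP: multiply the identity by further variables
-/

set_option autoImplicit false

namespace Pool.TF48.H33UP

theorem step (d : ℕ) (R : Type) [NonUnitalRing R] (h : MI d R) : MI (d + 1) R := by
  obtain ⟨a, ha, hx⟩ := h
  refine ⟨fun σ => if (Equiv.Perm.decomposeFin σ).1 = 0 then a (Equiv.Perm.decomposeFin σ).2
    else 0, ?_, ?_⟩
  · have h1 : Equiv.Perm.decomposeFin (1 : Equiv.Perm (Fin (d + 1 + 1))) =
        (0, (1 : Equiv.Perm (Fin (d + 1)))) := by
      rw [← Equiv.eq_symm_apply, Equiv.Perm.decomposeFin_symm_of_one, Equiv.swap_self]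
      rfl
    simp only [h1, if_true, ha]
  · intro x
    rw [← Equiv.sum_comp (Equiv.Perm.decomposeFin (n := d + 1)).symm]
    simp only [Equiv.apply_symm_apply]
    rw [Fintype.sum_prod_type, Finset.sum_eq_single (0 : Fin (d + 1 + 1))]
    · have h2 : ∀ e : Equiv.Perm (Fin (d + 1)),
          (List.ofFn (fun i : Fin (d + 1 + 1) =>
            (x ((Equiv.Perm.decomposeFin.symm ((0 : Fin (d + 1 + 1)), e)) i) :
              Unitization ℤ R))).prod =
          (x 0 : Unitization ℤ R) *
            (List.ofFn (fun i : Fin (d + 1) => (x ((e i).succ) : Unitization ℤ R))).prod := by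
        intro e
        rw [List.ofFn_succ, List.prod_cons]
        congr 1
      simp only [if_true, h2]
      have h3 := hx (fun i => x i.succ)
      calc ∑ e : Equiv.Perm (Fin (d + 1)), a e • ((x 0 : Unitization ℤ R) *
            (List.ofFn (fun i : Fin (d + 1) => (x ((e i).succ) : Unitization ℤ R))).prod)
          = (x 0 : Unitization ℤ R) * ∑ e : Equiv.Perm (Fin (d + 1)), a e •
            (List.ofFn (fun i : Fin (d + 1) => (x ((e i).succ) : Unitization ℤ R))).prod := by
            rw [Finset.mul_sum]
            refine Finset.sum_congr rfl fun e _ => ?_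
            rw [mul_smul_comm]
        _ = 0 := by rw [h3, mul_zero]
    · intro p _ hp
      simp [hp]
    · intro h
      exact absurd (Finset.mem_univ _) h

theorem up : S_UP := by
  intro d D R _ hdD h
  induction D, hdD using Nat.le_induction with
  | base => exact h
  | succ n _ ih => exact step n R ih

end Pool.TF48.H33UP
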